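import Mathlib
import Pool.Agent.X57.HostTri
import Pool.Agent.X57.SmallMinor2
import Pool.Agent.Results.MP_14fa4b_co.ManySummands

/-!
# Subdividing an edge of a disjoint union of triangles does not change the treewidth threshold
-/

namespace Pool.Agent.Results.MP_31fefb_co.TrianglesSubdivision

open SimpleGraph

/-- `G` has a tree decomposition of width at most `w`: a tree `T` and bags covering all vertices and
edges, such that the nodes whose bag contains a given vertex induce a connected subgraph of `T`, all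
bags having at most `w + 1` vertices. -/
def TwLE {V : Type} (G : SimpleGraph V) (w : ℕ) : Prop :=
  ∃ m : ℕ, ∃ T : SimpleGraph (Fin m), ∃ bag : Fin m → Set V,
    T.IsTree ∧ (∀ v, ∃ i, v ∈ bag i) ∧
    (∀ u v, G.Adj u v → ∃ i, u ∈ bag i ∧ v ∈ bag i) ∧
    (∀ v, (T.induce {i | v ∈ bag i}).Connected) ∧
    ∀ i, (bag i).ncard ≤ w + 1

/-- The treewidth of a finite graph. -/
noncomputable def tw {V : Type} (G : SimpleGraph V) : ℕ := sInf {w | TwLE G w}

/-- `H` is a minor of `G`: there are pairwise disjoint connected branch sets, one for each vertex of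
`H`, with an edge of `G` between any two branch sets belonging to adjacent vertices of `H`. -/
def IsMinor {W V : Type} (H : SimpleGraph W) (G : SimpleGraph V) : Prop :=
  ∃ B : W → Set V, (∀ x, (G.induce (B x)).Connected) ∧
    (∀ x y, x ≠ y → Disjoint (B x) (B y)) ∧
    ∀ x y, H.Adj x y → ∃ u ∈ B x, ∃ v ∈ B y, G.Adj u v

/-- A finite graph is planar if and only if it has neither `K_5` nor `K_{3,3}` as a minor
(Wagner's theorem); here this is the definition of planarity. -/
def Planar {W : Type} (H : SimpleGraph W) : Prop :=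
  ¬ IsMinor (⊤ : SimpleGraph (Fin 5)) H ∧
    ¬ IsMinor (completeBipartiteGraph (Fin 3) (Fin 3)) H

/-- The set of the `t` such that every finite graph of treewidth at least `t` has `H` as a minor. -/
def thresholds {W : Type} (H : SimpleGraph W) : Set ℕ :=
  {t | ∀ (V : Type) [Finite V] (G : SimpleGraph V), t ≤ tw G → IsMinor H G}

/-- `f(H)`: the least `t` such that every finite graph of treewidth at least `t` has `H` as a
minor. -/
noncomputable def f {W : Type} (H : SimpleGraph W) : ℕ := sInf (thresholds H)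

/-- The graph obtained from `H` by subdividing the edge `ab` once; the new vertex is `none`. -/
def subdivide {W : Type} (H : SimpleGraph W) (a b : W) : SimpleGraph (Option W) where
  Adj x y := (∃ c d, x = some c ∧ y = some d ∧ H.Adj c d ∧ s(c, d) ≠ s(a, b)) ∨
    (x = none ∧ (y = some a ∨ y = some b)) ∨ (y = none ∧ (x = some a ∨ x = some b))
  symm := ⟨by
    rintro x y (⟨c, d, h1, h2, h3, h4⟩ | ⟨h1, h2⟩ | ⟨h1, h2⟩)
    · exact Or.inl ⟨d, c, h2, h1, h3.symm, by rwa [Sym2.eq_swap]⟩
    · exact Or.inr (Or.inr ⟨h1, h2⟩)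
    · exact Or.inr (Or.inl ⟨h1, h2⟩)⟩
  loopless := ⟨by
    rintro x (⟨c, d, h1, h2, h3, h4⟩ | ⟨h1, h2⟩ | ⟨h1, h2⟩)
    · rw [h1] at h2
      exact h3.ne (Option.some.inj h2)
    · rw [h1] at h2
      rcases h2 with h2 | h2 <;> exact absurd h2 (by simp)
    · rw [h1] at h2
      rcases h2 with h2 | h2 <;> exact absurd h2 (by simp)⟩

/-- The disjoint union of `k` triangles. -/
def triangles (k : ℕ) : SimpleGraph (Fin k × Fin 3) where
  Adj x y := x.1 = y.1 ∧ x.2 ≠ y.2
  symm := ⟨fun _ _ h => ⟨h.1.symm, h.2.symm⟩⟩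
  loopless := ⟨fun _ h => h.2 rfl⟩

open Pool.Agent.X57 Pool.Agent.X57.SmallMinor

/-! ### Planarity -/

lemma not_minor_triangles {W : Type} [Fintype W] {H : SimpleGraph W} (hH : H.Connected)
    (hW : 3 < Fintype.card W) (k : ℕ) : ¬ IsMinor H (triangles k) := by
  rintro ⟨B, h1, h2, h3⟩
  have hne : ∀ x, ∃ v, v ∈ B x := by
    intro x
    obtain ⟨⟨v, hv⟩⟩ := (h1 x).nonempty
    exact ⟨v, hv⟩
  choose v hv using hne
  -- the component is constant on branch sets
  have hc : ∀ x, ∀ a ∈ B x, a.1 = (v x).1 := by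
    intro x a ha
    have hr := ((conn_iff (B x)).1 (h1 x)).2 a ha (v x) (hv x)
    have := weak_reachable (R' := (⊥ : SimpleGraph (Fin k))) (fun z : Fin k × Fin 3 => z.1)
      (fun a b hab => by
        have : a.1 = b.1 := hab.1.1
        simp only [this]
        exact Reachable.refl _) hr
    simpa using this
  have hadj : ∀ x y, H.Adj x y → (v x).1 = (v y).1 := by
    intro x y hxy
    obtain ⟨a, ha, b, hb, hab⟩ := h3 x y hxy
    rw [← hc x a ha, ← hc y b hb]
    exact hab.1
  have hall : ∀ x y, (v x).1 = (v y).1 := by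
    intro x y
    have := weak_reachable (R' := (⊥ : SimpleGraph (Fin k))) (fun z : W => (v z).1)
      (fun a b hab => by
        simp only [hadj a b hab]
        exact Reachable.refl _) (hH.preconnected x y)
    simpa using this
  have hinj : Function.Injective (fun x => (v x).2) := by
    intro x y hxy
    by_contra hne
    have : v x = v y := Prod.ext (hall x y) hxy
    exact Set.disjoint_left.1 (h2 x y hne) (hv x) (this ▸ hv y)
  have := Fintype.card_le_of_injective _ hinj
  rw [Fintype.card_fin] at this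
  omega

lemma planar_triangles (k : ℕ) : Planar (triangles k) := by
  constructor
  · apply not_minor_triangles _ (by simp)
    exact connected_top
  · apply not_minor_triangles _ (by simp)
    have key : ∀ x, (completeBipartiteGraph (Fin 3) (Fin 3)).Reachable (Sum.inl 0) x := by
      rintro (a | b)
      · have h1 : (completeBipartiteGraph (Fin 3) (Fin 3)).Adj (Sum.inl 0) (Sum.inr 0) := by simp
        have h2 : (completeBipartiteGraph (Fin 3) (Fin 3)).Adj (Sum.inr 0) (Sum.inl a) := by simp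
        exact h1.reachable.trans h2.reachable
      · have h1 : (completeBipartiteGraph (Fin 3) (Fin 3)).Adj (Sum.inl 0) (Sum.inr b) := by simp
        exact h1.reachable
    have : Nonempty (Fin 3 ⊕ Fin 3) := ⟨Sum.inl 0⟩
    exact ⟨fun x y => (key x).symm.trans (key y)⟩

/-! ### Treewidth -/

lemma twLE_of_ptd {V : Type} [Fintype V] {G : SimpleGraph V} {m : ℕ} {par : ℕ → ℕ}
    {B : ℕ → Finset V} (h : PTD G Finset.univ m par B) {w : ℕ} (hB : ∀ i < m, (B i).card ≤ w + 1) :
    TwLE G w := by
  refine ⟨m, ptree m par h.lt, fun i => (B i.val : Set V), ptree_isTree h.pos h.lt, ?_, ?_, ?_, ?_⟩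
  · intro v
    obtain ⟨i, hi, hv⟩ := h.cov v (Finset.mem_univ _)
    exact ⟨⟨i, hi⟩, hv⟩
  · intro u v huv
    obtain ⟨i, hi, h1, h2⟩ := h.edge u (Finset.mem_univ _) v (Finset.mem_univ _) huv
    exact ⟨⟨i, hi⟩, h1, h2⟩
  · intro v
    exact h.connected v (Finset.mem_univ _)
  · intro i
    rw [Set.ncard_coe_finset]
    exact hB i.val i.isLt

/-- a graph without a model of the 4-cycle has treewidth at most two -/
lemma hasC4_of_tw {V : Type} [Finite V] {G : SimpleGraph V} (h : 3 ≤ tw G) :
    HasC4 G Set.univ := by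
  classical
  have := Fintype.ofFinite V
  by_contra hno
  obtain ⟨m, par, B, hptd, hB⟩ := exists_ptd _ G Finset.univ rfl
    (by rwa [Finset.coe_univ])
  have h1 : TwLE G 2 := twLE_of_ptd hptd hB
  have h2 : tw G ≤ 2 := Nat.sInf_le h1
  omega

lemma exists_twLE {V : Type} [Finite V] (G : SimpleGraph V) : TwLE G (tw G) := by
  have := Fintype.ofFinite V
  exact Pool.Agent.Results.MP_14fa4b_co.ManySummands.exists_twLE G

/-- adding the vertices of `X` to all bags -/
lemma twLE_add {V : Type} [Finite V] {G : SimpleGraph V} {X : Set V} {w : ℕ}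
    (h : TwLE (G.induce Xᶜ) w) : TwLE G (w + X.ncard) := by
  obtain ⟨m, T, bag, h1, h2, h3, h4, h5⟩ := h
  obtain ⟨i0⟩ := h1.connected.nonempty
  refine ⟨m, T, fun i => Subtype.val '' (bag i) ∪ X, h1, ?_, ?_, ?_, ?_⟩
  · intro v
    by_cases hv : v ∈ X
    · exact ⟨i0, Or.inr hv⟩
    · obtain ⟨i, hi⟩ := h2 ⟨v, hv⟩
      exact ⟨i, Or.inl ⟨⟨v, hv⟩, hi, rfl⟩⟩
  · intro u v huv
    by_cases hu : u ∈ X
    · by_cases hv : v ∈ X
      · exact ⟨i0, Or.inr hu, Or.inr hv⟩
      · obtain ⟨i, hi⟩ := h2 ⟨v, hv⟩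
        exact ⟨i, Or.inr hu, Or.inl ⟨⟨v, hv⟩, hi, rfl⟩⟩
    · by_cases hv : v ∈ X
      · obtain ⟨i, hi⟩ := h2 ⟨u, hu⟩
        exact ⟨i, Or.inl ⟨⟨u, hu⟩, hi, rfl⟩, Or.inr hv⟩
      · obtain ⟨i, hi, hi'⟩ := h3 ⟨u, hu⟩ ⟨v, hv⟩ huv
        exact ⟨i, Or.inl ⟨⟨u, hu⟩, hi, rfl⟩, Or.inl ⟨⟨v, hv⟩, hi', rfl⟩⟩
  · intro v
    by_cases hv : v ∈ X
    · have e : {i | v ∈ Subtype.val '' (bag i) ∪ X} = Set.univ := by
        ext i
        simp [hv]
      rw [e]
      rw [conn_iff]
      refine ⟨⟨i0, trivial⟩, fun x _ y _ => ?_⟩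
      have e2 : res T Set.univ = T := by
        ext a b
        exact ⟨fun h => h.1, fun h => ⟨h, trivial, trivial⟩⟩
      rw [e2]
      exact h1.connected.preconnected x y
    · have e : {i | v ∈ Subtype.val '' (bag i) ∪ X} = {i | (⟨v, hv⟩ : (Xᶜ : Set V)) ∈ bag i} := by
        ext i
        constructor
        · rintro (⟨y, hy, hyv⟩ | h)
          · have : y = ⟨v, hv⟩ := Subtype.ext hyv
            rw [← this]
            exact hy
          · exact absurd h hv
        · intro h
          exact Or.inl ⟨_, h, rfl⟩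
      rw [e]
      exact h4 ⟨v, hv⟩
  · intro i
    calc (Subtype.val '' (bag i) ∪ X).ncard ≤ (Subtype.val '' (bag i)).ncard + X.ncard :=
          Set.ncard_union_le _ _
      _ = (bag i).ncard + X.ncard := by
          rw [Set.ncard_image_of_injective _ Subtype.val_injective]
      _ ≤ w + X.ncard + 1 := by have := h5 i; omega

/-! ### Assembling models -/

lemma minor_triangles {V : Type} {G : SimpleGraph V} {k : ℕ} (U : Fin k → Set V)
    (hd : ∀ i j, i ≠ j → Disjoint (U i) (U j)) (hU : ∀ i, HasK3 G (U i)) :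
    IsMinor (triangles k) G := by
  choose g h1 h2 h3 h4 using fun i => hasK3_fun (hU i)
  refine ⟨fun p => g p.1 p.2, fun p => h2 p.1 p.2, ?_, ?_⟩
  · rintro ⟨i, a⟩ ⟨j, b⟩ hne
    by_cases hij : i = j
    · subst hij
      exact h3 i a b (fun h => hne (by rw [h]))
    · exact (hd i j hij).mono (h1 i a) (h1 j b)
  · rintro ⟨i, a⟩ ⟨j, b⟩ ⟨hij, hab⟩
    simp only at hij hab
    subst hij
    exact h4 i a b hab

lemma minor_subdivide {V : Type} {G : SimpleGraph V} {k : ℕ} (U : Fin k → Set V)
    (hd : ∀ i j, i ≠ j → Disjoint (U i) (U j)) (i0 : Fin k) (hC : HasC4 G (U i0))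
    (hU : ∀ i, i ≠ i0 → HasK3 G (U i)) {a b : Fin 3} (hab : a ≠ b) :
    IsMinor (subdivide (triangles k) (i0, a) (i0, b)) G := by
  have hK : ∀ i, ∃ g : Fin 3 → Set V, i ≠ i0 → (∀ d, g d ⊆ U i) ∧
      (∀ d, (G.induce (g d)).Connected) ∧ (∀ d e, d ≠ e → Disjoint (g d) (g e)) ∧
      ∀ d e, d ≠ e → AdjS G (g d) (g e) := by
    intro i
    by_cases hi : i = i0
    · exact ⟨fun _ => ∅, fun h => absurd hi h⟩
    · obtain ⟨g, hg⟩ := hasK3_fun (hU i hi)
      exact ⟨g, fun _ => hg⟩
  choose g hg using hK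
  obtain ⟨A, B, C, D, hA, hB, hC', hD, h⟩ := hC
  -- the branch sets in the component `i0`
  set F : Fin 3 → Set V := fun d => if d = a then A else if d = b then C else D with hF
  have third : ∀ d, d = a ∨ d = b ∨ (d ≠ a ∧ d ≠ b) := by
    intro d
    tauto
  have T3 : ∀ a b d e : Fin 3, a ≠ b → d ≠ a → d ≠ b → e ≠ a → e ≠ b → d = e := by decide
  have thirdu : ∀ d e : Fin 3, d ≠ a → d ≠ b → e ≠ a → e ≠ b → d = e :=
    fun d e => T3 a b d e hab
  have hFa : F a = A := by simp [hF]
  have hFb : F b = C := by simp [hF, hab.symm]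
  have hFc : ∀ d, d ≠ a → d ≠ b → F d = D := by
    intro d h1 h2
    simp [hF, h1, h2]
  have hFU : ∀ d, F d ⊆ U i0 := by
    intro d
    rcases third d with rfl | rfl | ⟨h1, h2⟩
    · rw [hFa]; exact hA
    · rw [hFb]; exact hC'
    · rw [hFc d h1 h2]; exact hD
  have hFconn : ∀ d, (G.induce (F d)).Connected := by
    intro d
    rcases third d with rfl | rfl | ⟨h1, h2⟩
    · rw [hFa]; exact h.cA
    · rw [hFb]; exact h.cC
    · rw [hFc d h1 h2]; exact h.cD
  have hFB : ∀ d, Disjoint (F d) B := by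
    intro d
    rcases third d with rfl | rfl | ⟨h1, h2⟩
    · rw [hFa]; exact h.dAB
    · rw [hFb]; exact h.dBC.symm
    · rw [hFc d h1 h2]; exact h.dBD.symm
  have hFd : ∀ d e, d ≠ e → Disjoint (F d) (F e) := by
    intro d e hde
    rcases third d with rfl | rfl | ⟨h1, h2⟩ <;> rcases third e with rfl | rfl | ⟨h3, h4⟩
    · exact absurd rfl hde
    · rw [hFa, hFb]; exact h.dAC
    · rw [hFa, hFc e h3 h4]; exact h.dAD
    · rw [hFb, hFa]; exact h.dAC.symm
    · exact absurd rfl hde
    · rw [hFb, hFc e h3 h4]; exact h.dCD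
    · rw [hFc d h1 h2, hFa]; exact h.dAD.symm
    · rw [hFc d h1 h2, hFb]; exact h.dCD.symm
    · exact absurd (thirdu d e h1 h2 h3 h4) hde
  have hFadj : ∀ d e, d ≠ e → ¬ ((d = a ∧ e = b) ∨ (d = b ∧ e = a)) → AdjS G (F d) (F e) := by
    intro d e hde hne
    rcases third d with rfl | rfl | ⟨h1, h2⟩ <;> rcases third e with rfl | rfl | ⟨h3, h4⟩
    · exact absurd rfl hde
    · exact absurd (Or.inl ⟨rfl, rfl⟩) hne
    · rw [hFa, hFc e h3 h4]; exact h.aDA.symm
    · exact absurd (Or.inr ⟨rfl, rfl⟩) hne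
    · exact absurd rfl hde
    · rw [hFb, hFc e h3 h4]; exact h.aCD
    · rw [hFc d h1 h2, hFa]; exact h.aDA
    · rw [hFc d h1 h2, hFb]; exact h.aCD.symm
    · exact absurd (thirdu d e h1 h2 h3 h4) hde
  -- all branch sets
  set E : Option (Fin k × Fin 3) → Set V := fun x => match x with
    | none => B
    | some p => if p.1 = i0 then F p.2 else g p.1 p.2 with hE
  have hEn : E none = B := rfl
  have hE0 : ∀ d, E (some (i0, d)) = F d := by
    intro d
    simp [hE]
  have hE1 : ∀ i d, i ≠ i0 → E (some (i, d)) = g i d := by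
    intro i d hi
    simp [hE, hi]
  have hEU : ∀ i d, E (some (i, d)) ⊆ U i := by
    intro i d
    by_cases hi : i = i0
    · rw [hi, hE0]; exact hFU d
    · rw [hE1 i d hi]; exact (hg i hi).1 d
  refine ⟨E, ?_, ?_, ?_⟩
  · rintro (_ | ⟨i, d⟩)
    · rw [hEn]; exact h.cB
    · by_cases hi : i = i0
      · rw [hi, hE0]; exact hFconn d
      · rw [hE1 i d hi]; exact (hg i hi).2.1 d
  · have hnone : ∀ i d, Disjoint (E (some (i, d))) B := by
      intro i d
      by_cases hi : i = i0
      · rw [hi, hE0]; exact hFB d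
      · exact (hd i i0 hi).mono (hEU i d) hB
    rintro (_ | ⟨i, d⟩) (_ | ⟨j, e⟩) hne
    · exact absurd rfl hne
    · rw [hEn]; exact (hnone j e).symm
    · rw [hEn]; exact hnone i d
    · by_cases hij : i = j
      · subst hij
        have hde : d ≠ e := fun h => hne (by rw [h])
        by_cases hi : i = i0
        · rw [hi, hE0, hE0]; exact hFd d e hde
        · rw [hE1 i d hi, hE1 i e hi]; exact (hg i hi).2.2.1 d e hde
      · exact (hd i j hij).mono (hEU i d) (hEU j e)
  · rintro x y (⟨⟨i, d⟩, ⟨j, e⟩, rfl, rfl, ⟨h1, h1'⟩, h2⟩ | ⟨rfl, h1⟩ | ⟨rfl, h1⟩)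
    · simp only at h1 h1'
      subst h1
      by_cases hi : i = i0
      · subst hi
        rw [hE0, hE0]
        apply hFadj d e h1'
        rintro (⟨rfl, rfl⟩ | ⟨rfl, rfl⟩)
        · exact h2 rfl
        · exact h2 Sym2.eq_swap
      · rw [hE1 i d hi, hE1 i e hi]; exact (hg i hi).2.2.2 d e h1'
    · rw [hEn]
      rcases h1 with rfl | rfl
      · rw [hE0, hFa]; exact h.aAB.symm
      · rw [hE0, hFb]; exact h.aBC
    · rw [hEn]
      rcases h1 with rfl | rfl
      · rw [hE0, hFa]; exact h.aAB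
      · rw [hE0, hFb]; exact h.aBC.symm

/-- the threshold of the disjoint union of triangles is finite -/
lemma thresholds_nonempty {k : ℕ} (hk : 1 ≤ k) : (thresholds (triangles k)).Nonempty := by
  classical
  refine ⟨114 ^ Nat.clog 2 (Fintype.card (Fin k)) * 3, ?_⟩
  intro V _ G hG
  have := Fintype.ofFinite V
  have : Nonempty (Fin k) := ⟨⟨0, hk⟩⟩
  obtain ⟨c, hc⟩ := (Pool.Agent.Results.MP_14fa4b_co.ManySummands.result.1 V G (Fin k) 3
    (by norm_num) hG).1
  apply minor_triangles (fun i => {v | c v = i})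
  · intro i j hij
    rw [Set.disjoint_left]
    intro x hx hy
    exact hij (hx.symm.trans hy)
  · intro i
    have h1 : 3 ≤ tw (G.induce {v | c v = i}) := hc i
    exact (hasC4_lift (hasC4_of_tw h1)).hasK3

/-- the main step -/
lemma main_step {k : ℕ} {V : Type} [Finite V] {G : SimpleGraph V}
    (hG : IsMinor (triangles k) G) (htw : 3 * k + 3 ≤ tw G) (i0 : Fin k) {a b : Fin 3}
    (hab : a ≠ b) : IsMinor (subdivide (triangles k) (i0, a) (i0, b)) G := by
  classical
  obtain ⟨B, h1, h2, h3⟩ := hG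
  set U : Fin k → Set V := fun i => ⋃ d, B (i, d) with hU
  have hBU : ∀ i d, B (i, d) ⊆ U i := fun i d => Set.subset_iUnion (fun d => B (i, d)) d
  have hUd : ∀ i j, i ≠ j → Disjoint (U i) (U j) := by
    intro i j hij
    rw [Set.disjoint_left]
    intro x hx hy
    obtain ⟨d, hd⟩ := Set.mem_iUnion.1 hx
    obtain ⟨e, he⟩ := Set.mem_iUnion.1 hy
    exact Set.disjoint_left.1 (h2 (i, d) (j, e) (fun h => hij (congrArg Prod.fst h))) hd he
  have hUK : ∀ i, HasK3 G (U i) := by
    intro i
    refine ⟨B (i, 0), B (i, 1), B (i, 2), hBU i 0, hBU i 1, hBU i 2, h1 _, h1 _, h1 _,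
      h2 _ _ (by simp), h2 _ _ (by simp), h2 _ _ (by simp), h3 _ _ ⟨rfl, ?_⟩, h3 _ _ ⟨rfl, ?_⟩,
      h3 _ _ ⟨rfl, ?_⟩⟩
    · change (0 : Fin 3) ≠ 1; decide
    · change (1 : Fin 3) ≠ 2; decide
    · change (2 : Fin 3) ≠ 0; decide
  by_cases hC : ∃ i, HasC4 G (U i)
  · obtain ⟨i, hi⟩ := hC
    apply minor_subdivide (fun j => U (Equiv.swap i i0 j)) (fun j j' hjj' =>
      hUd _ _ (fun h => hjj' ((Equiv.swap i i0).injective h))) i0 _ (fun j _ => hUK _) hab
    rw [Equiv.swap_apply_right]
    exact hi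
  · push Not at hC
    choose x hx y hy z hz hxy hyz hzx using fun i => exists_triangle (hUK i) (hC i)
    set X : Set V := ⋃ i, {x i, y i, z i} with hX
    have hXcard : X.ncard ≤ 3 * k := by
      have hXf : X = ((Finset.univ.biUnion (fun i : Fin k => ({x i, y i, z i} : Finset V)) :
          Finset V) : Set V) := by
        ext v
        simp [hX]
      rw [hXf, Set.ncard_coe_finset]
      calc _ ≤ ∑ i : Fin k, ({x i, y i, z i} : Finset V).card := Finset.card_biUnion_le
        _ ≤ ∑ _i : Fin k, 3 := Finset.sum_le_sum (fun i _ => Finset.card_le_three)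
        _ = 3 * k := by simp [mul_comm]
    have h4 : 3 ≤ tw (G.induce Xᶜ) := by
      have h5 := twLE_add (exists_twLE (G.induce Xᶜ))
      have h6 : tw G ≤ tw (G.induce Xᶜ) + X.ncard := Nat.sInf_le h5
      omega
    have h5 : HasC4 G Xᶜ := hasC4_lift (hasC4_of_tw h4)
    set U' : Fin k → Set V := fun i => if i = i0 then Xᶜ else {x i, y i, z i} with hU'
    have hsub : ∀ i, ({x i, y i, z i} : Set V) ⊆ U i := by
      intro i v hv
      rcases hv with rfl | rfl | rfl
      · exact hx i
      · exact hy i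
      · exact hz i
    have hsubX : ∀ i, ({x i, y i, z i} : Set V) ⊆ X := fun i =>
      Set.subset_iUnion (fun i => ({x i, y i, z i} : Set V)) i
    apply minor_subdivide U' _ i0 _ _ hab
    · intro i j hij
      by_cases hi : i = i0
      · by_cases hj : j = i0
        · exact absurd (hi.trans hj.symm) hij
        · simp only [hU', hi, hj, if_true, if_false]
          exact Set.disjoint_left.2 (fun v hv hv' => hv (hsubX j hv'))
      · by_cases hj : j = i0
        · simp only [hU', hi, hj, if_true, if_false]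
          exact Set.disjoint_left.2 (fun v hv hv' => hv' (hsubX i hv))
        · simp only [hU', hi, hj, if_false]
          exact (hUd i j hij).mono (hsub i) (hsub j)
    · simp only [hU', if_true]
      exact h5
    · intro i hi
      simp only [hU', hi, if_false]
      exact hasK3_of_triangle (hxy i) (hyz i) (hzx i)

/-- **Q1 is false.** There are arbitrarily large `k` such that the planar graph `H` which is the
disjoint union of `k` triangles satisfies `f(H') ≤ f(H)` for every graph `H'` obtained from `H` by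
subdividing one edge once (the thresholds being finite). In particular `f(H') = f(H) + 1` does not
hold for all planar graphs `H` and all edges. -/
theorem result :
    (∀ k₀ : ℕ, ∃ k : ℕ, k₀ ≤ k ∧ Planar (triangles k) ∧ (thresholds (triangles k)).Nonempty ∧
      ∀ p q : Fin k × Fin 3, (triangles k).Adj p q →
        (thresholds (subdivide (triangles k) p q)).Nonempty ∧
        f (subdivide (triangles k) p q) ≤ f (triangles k)) ∧
    ¬ ∀ (W : Type) [Finite W] (H : SimpleGraph W) (p q : W), Planar H → H.Adj p q →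
      f (subdivide H p q) = f H + 1 := by
  have main : ∀ k₀ : ℕ, ∃ k : ℕ, k₀ ≤ k ∧ Planar (triangles k) ∧
      (thresholds (triangles k)).Nonempty ∧
      ∀ p q : Fin k × Fin 3, (triangles k).Adj p q →
        (thresholds (subdivide (triangles k) p q)).Nonempty ∧
        f (subdivide (triangles k) p q) ≤ f (triangles k) := by
    intro k₀
    obtain ⟨k, N, G, hk, hno, htw⟩ := HostTri.host 2 (k₀ + 1)
    have hne := thresholds_nonempty (k := k) (by omega)
    have hmem : f (triangles k) ∈ thresholds (triangles k) := Nat.sInf_mem hne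
    have hbig : 3 * k + 3 ≤ f (triangles k) := by
      by_contra hlt
      push Not at hlt
      apply hno
      apply hmem (Fin N) G
      have h1 := htw (tw G) (exists_twLE G)
      omega
    refine ⟨k, by omega, planar_triangles k, hne, ?_⟩
    rintro ⟨i, a⟩ ⟨j, b⟩ ⟨hij, hab⟩
    simp only at hij hab
    subst hij
    have h2 : f (triangles k) ∈ thresholds (subdivide (triangles k) (i, a) (i, b)) := by
      intro V _ G' hG'
      exact main_step (hmem V G' hG') (by omega) i hab
    exact ⟨⟨_, h2⟩, Nat.sInf_le h2⟩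
  refine ⟨main, fun h => ?_⟩
  obtain ⟨k, hk, h1, -, h2⟩ := main 1
  have hadj : (triangles k).Adj (⟨0, hk⟩, 0) (⟨0, hk⟩, 1) := ⟨rfl, by
    change (0 : Fin 3) ≠ 1; decide⟩
  have h3 := h _ (triangles k) _ _ h1 hadj
  have h4 := (h2 _ _ hadj).2
  omega

end Pool.Agent.Results.MP_31fefb_co.TrianglesSubdivision
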